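import Mathlib
import Pool.Agent.Q43.LC.Cheb

/-!
# The numbers `8 T_m(x) ^ 2 + 1` with variable bounded constants

`Q43.LC.Cheb` (helper43) with `8 T_m(x) ^ 2 + 1 + c_m`, `c` a bounded sequence of natural numbers.
-/

set_option autoImplicit false

namespace Pool.Agent.Q288.VC

open Filter Topology Finset MeasureTheory Pool.Agent.Q43.LC
open scoped ENNReal NNReal

/-- the phases -/
noncomputable def cz (c : ℕ → ℕ) (m : ℕ) (t : ℝ) : ℝ :=
  m * t + Real.log 2 + Real.log (1 + (((5 + c m : ℕ) : ℝ) / 2 * Real.exp (-(m * (1 * t - 0))) +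
    1 * Real.exp (-(m * (2 * t - 0)))))

lemma LF_cz {c : ℕ → ℕ} {B : ℕ} (hc : ∀ m, c m ≤ B) : LF 0 (cz c) := by
  have h1 := RB_exp (c0 := 0) (θ := 1 / 4) (K := ((5 + B : ℕ) : ℝ) / 2) (m1 := 1) (m0 := 0)
    (by norm_num) one_pos (by norm_num) (σ := fun m => ((5 + c m : ℕ) : ℝ) / 2) fun m => by
      rw [abs_of_nonneg (by positivity)]
      have : ((5 + c m : ℕ) : ℝ) ≤ (5 + B : ℕ) := by exact_mod_cast Nat.add_le_add_left (hc m) 5
      linarith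
  have h2 := RB_exp (c0 := 0) (θ := 1 / 4) (K := 1) (m1 := 2) (m0 := 0) (by norm_num) two_pos
    (by norm_num) (σ := fun _ => 1) fun m => by simp
  have h3 := h1.add h2
  rw [show (1 / 4 + 1 / 4 : ℝ) = 1 / 2 by norm_num] at h3
  exact ⟨_, lc_of (H := fun _ => Real.log 2) (H' := fun _ => 0)
    (fun t _ => hasDerivAt_const t _) continuousOn_const h3⟩

lemma val_cz (c : ℕ → ℕ) (t : ℝ) (m : ℕ) :
    0 < 8 * TT (Real.cosh (t / 2)) m ^ 2 + 1 + c m ∧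
      Real.log (8 * TT (Real.cosh (t / 2)) m ^ 2 + 1 + c m) = cz c m t := by
  refine ⟨by positivity, ?_⟩
  have e1 : 8 * TT (Real.cosh (t / 2)) m ^ 2 + 1 + c m = 2 * (Real.exp (m * t) *
      (1 + (((5 + c m : ℕ) : ℝ) / 2 * Real.exp (-(m * (1 * t - 0))) +
        1 * Real.exp (-(m * (2 * t - 0)))))) := by
    rw [TT_cosh, Real.cosh_eq]
    set z := Real.exp (m * (t / 2)) with hz
    have hz0 : 0 < z := Real.exp_pos _
    have f1 : Real.exp (-(m * (t / 2))) = z⁻¹ := by rw [Real.exp_neg]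
    have f2 : Real.exp (m * t) = z ^ 2 := by
      rw [hz, ← Real.exp_nat_mul]; congr 1; push_cast; ring
    have f3 : Real.exp (-(m * (1 * t - 0))) = (z ^ 2)⁻¹ := by
      rw [← f2, ← Real.exp_neg]; congr 1; ring
    have f4 : Real.exp (-(m * (2 * t - 0))) = (z ^ 2)⁻¹ * (z ^ 2)⁻¹ := by
      rw [← f3, ← Real.exp_add]; congr 1; ring
    rw [f1, f2, f3, f4]
    push_cast
    field_simp
    ring
  rw [e1, Real.log_mul (by norm_num) (by positivity),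
    Real.log_mul (Real.exp_pos (m * t)).ne' (by positivity), Real.log_exp]
  unfold cz
  ring

/-- **The numbers `8 T_m(x) ^ 2 + 1 + c_m`: dimension.** -/
theorem cz_dim : ∃ C : ℕ, 2 ≤ C ∧ ∀ (c : ℕ → ℕ) (B : ℕ), (∀ m, c m ≤ B) → ∀ S : Set ℕ, Lac C S →
    ∀ b0 b1 : ℝ, 0 < b0 → b0 < b1 →
      1 ≤ dimH {t | b0 < t ∧ t < b1 ∧ ∃ M : ℕ, ∀ m ∈ S, M ≤ m →
        (⌊8 * TT (Real.cosh (t / 2)) m ^ 2 + 1 + c m⌋₊).Prime} := by
  obtain ⟨C, hC2, hC⟩ := main2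
  refine ⟨C, hC2, fun c B hc S hS b0 b1 h0 h1 => ?_⟩
  have hv := fun t (_ : (0 : ℝ) < t) => Eventually.of_forall (f := atTop) fun m : ℕ =>
    val_cz c t m
  refine (hC 0 _ _ (fun m t => 8 * TT (Real.cosh (t / 2)) m ^ 2 + 1 + c m)
    (fun m t => 8 * TT (Real.cosh (t / 2)) m ^ 2 + 1 + c m) le_rfl (LF_cz hc) (LF_cz hc) hv hv S ∅
    (Set.disjoint_empty _) (by rwa [Set.union_empty]) b0 b1 h0 h1).trans (dimH_mono ?_)
  rintro t ⟨t0, t1, M, h2, _⟩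
  exact ⟨t0, t1, M, fun m hm hge => h2 m hm hge⟩

/-- **A soft argument**: patterns on sets which are not countable give patterns for comeagre many
points. -/
theorem soft {J : Set ℝ} (hJ : IsOpen J) {v : ℕ → ℝ → ℝ} (hv : ∀ m, ContinuousOn (v m) J)
    (hv0 : ∀ m, ∀ x ∈ J, 0 ≤ v m x) {K₀ : ℕ}
    (hcount : ∀ m, K₀ ≤ m → {x ∈ J | ∃ n : ℕ, v m x = n}.Countable) {S : Set ℕ} {W : ℕ → Set ℕ}
    (h : ∀ a b : ℝ, a < b → Set.Ioo a b ⊆ J →
      ¬ {x | a < x ∧ x < b ∧ ∃ M : ℕ, ∀ m ∈ S, M ≤ m → ⌊v m x⌋₊ ∈ W m}.Countable) (g : ℕ → ℕ) :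
    ∀ᶠ x : ℝ in residual ℝ, x ∈ J → ∀ K : ℕ, ∃ k, K ≤ k ∧ ∀ m ∈ S, k ≤ m → m ≤ g k →
      ⌊v m x⌋₊ ∈ W m := by
  have main : ∀ K : ℕ, ∀ᶠ x : ℝ in residual ℝ, x ∈ J → ∃ k, K ≤ k ∧ ∀ m ∈ S, k ≤ m → m ≤ g k →
      ⌊v m x⌋₊ ∈ W m := by
    classical
    intro K
    set O : ℕ → Set ℝ := fun m => {x ∈ J | ∃ n ∈ W m, (n : ℝ) < v m x ∧ v m x < n + 1} with hO
    have hOo : ∀ m, IsOpen (O m) := by
      intro m
      have : O m = ⋃ n : ℕ, ⋃ _ : n ∈ W m, J ∩ v m ⁻¹' (Set.Ioo (n : ℝ) (n + 1)) := by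
        ext x
        simp only [hO, Set.mem_iUnion, Set.mem_inter_iff, Set.mem_preimage, Set.mem_Ioo]
        constructor
        · rintro ⟨h1, n, h2, h3⟩
          exact ⟨n, h2, h1, h3⟩
        · rintro ⟨n, h2, h1, h3⟩
          exact ⟨h1, n, h2, h3⟩
      rw [this]
      exact isOpen_iUnion fun n => isOpen_iUnion fun _ =>
        (hv m).isOpen_inter_preimage hJ isOpen_Ioo
    set U : Set ℝ := ⋃ k : ℕ, ⋃ _ : K ≤ k, J ∩ ⋂ m ∈ (Finset.Icc k (g k)).filter (· ∈ S), O m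
      with hU
    have hUo : IsOpen U := isOpen_iUnion fun k => isOpen_iUnion fun _ =>
      hJ.inter (isOpen_biInter_finset fun m _ => hOo m)
    have hVo : IsOpen ((closure J)ᶜ ∪ U) := isClosed_closure.isOpen_compl.union hUo
    have hVd : Dense ((closure J)ᶜ ∪ U) := by
      rw [dense_iff_inter_open]
      intro V hV hVn
      by_cases hVJ : (V ∩ J).Nonempty
      · obtain ⟨x, hxV, hxJ⟩ := hVJ
        obtain ⟨ε, hε, hball⟩ := Metric.isOpen_iff.mp (hV.inter hJ) x ⟨hxV, hxJ⟩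
        have hsub : Set.Ioo (x - ε) (x + ε) ⊆ V ∩ J := by
          rw [← Real.ball_eq_Ioo]
          exact hball
        have h1 := h (x - ε) (x + ε) (by linarith) (hsub.trans Set.inter_subset_right)
        have h2 : (⋃ m : ℕ, ⋃ _ : K₀ ≤ m, {x ∈ J | ∃ n : ℕ, v m x = n}).Countable :=
          Set.countable_iUnion fun m => Set.countable_iUnion fun hm => hcount m hm
        obtain ⟨y, ⟨hy1, hy2, M, hM⟩, hy3⟩ : ∃ y, y ∈ {y | x - ε < y ∧ y < x + ε ∧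
            ∃ M : ℕ, ∀ m ∈ S, M ≤ m → ⌊v m y⌋₊ ∈ W m} ∧
            y ∉ ⋃ m : ℕ, ⋃ _ : K₀ ≤ m, {x ∈ J | ∃ n : ℕ, v m x = n} := by
          by_contra hcon
          push Not at hcon
          exact h1 (h2.mono fun y hy => hcon y hy)
        obtain ⟨hyV, hyJ⟩ := hsub ⟨hy1, hy2⟩
        refine ⟨y, hyV, Or.inr ?_⟩
        simp only [hU, Set.mem_iUnion]
        refine ⟨max (max M K) K₀, (le_max_right _ _).trans (le_max_left _ _), hyJ, ?_⟩
        simp only [Set.mem_iInter, Finset.mem_filter, Finset.mem_Icc]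
        rintro m ⟨⟨hm1, hm2⟩, hmS⟩
        have hm3 : M ≤ m := ((le_max_left _ _).trans (le_max_left _ _)).trans hm1
        have hm4 : K₀ ≤ m := (le_max_right _ _).trans hm1
        refine ⟨hyJ, ⌊v m y⌋₊, hM m hmS hm3, ?_, Nat.lt_floor_add_one _⟩
        refine lt_of_le_of_ne (Nat.floor_le (hv0 m y hyJ)) fun heq => hy3 ?_
        simp only [Set.mem_iUnion]
        exact ⟨m, hm4, hyJ, _, heq.symm⟩
      · -- `V` does not meet `J`, so it is outside of the closure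
        obtain ⟨x, hx⟩ := hVn
        refine ⟨x, hx, Or.inl fun hcl => hVJ ?_⟩
        obtain ⟨y, hy1, hy2⟩ := mem_closure_iff.mp hcl V hV hx
        exact ⟨y, hy1, hy2⟩
    filter_upwards [residual_of_dense_open hVo hVd] with x hx hxJ
    rcases hx with hx | hx
    · exact absurd (subset_closure hxJ) hx
    · simp only [hU, Set.mem_iUnion] at hx
      obtain ⟨k, hk, -, hx2⟩ := hx
      simp only [Set.mem_iInter, Finset.mem_filter, Finset.mem_Icc] at hx2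
      refine ⟨k, hk, fun m hm h1 h2 => ?_⟩
      obtain ⟨-, n, hn1, hn2, hn3⟩ := hx2 m ⟨⟨h1, h2⟩, hm⟩
      have : ⌊v m x⌋₊ = n := by
        rw [Nat.floor_eq_iff (hv0 m x hxJ)]
        exact ⟨hn2.le, hn3⟩
      rwa [this]
  exact (eventually_countable_forall.2 main).mono fun x hx hxJ K => hx K hxJ

end Pool.Agent.Q288.VC
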