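import Mathlib
import Pool.Agent.Q43.LC.HypAe
import Pool.Agent.Q288.VC.Cheb

/-!
# Lucas sequences at real points with variable bounded constants

`Q43.LC.Hyp` (helper43) with `α F_m + c_m`, `β L_m + d_m`, where `c`, `d` are bounded sequences of
natural numbers.
-/

set_option autoImplicit false

namespace Pool.Agent.Q288.VC

open Filter Topology Finset MeasureTheory Pool.Agent.Q43.LC
open scoped ENNReal NNReal

/-- small perturbations with a factor -/
lemma RB_mul {c0 m1 m0 θ K : ℝ} {h h' : ℝ → ℝ} (hh : ∀ t, c0 < t → HasDerivAt h (h' t) t)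
    (hh' : ContinuousOn h' (Set.Ioi c0)) (hθ : 0 < θ) (hm1 : 0 < m1) (hm : m0 ≤ m1 * c0)
    {σ : ℕ → ℝ} (hσ : ∀ m, |σ m| ≤ K) :
    RB c0 θ (fun m t => h t * (σ m * Real.exp (-(m * (m1 * t - m0)))))
      (fun m t => h' t * (σ m * Real.exp (-(m * (m1 * t - m0)))) +
        h t * (σ m * (Real.exp (-(m * (m1 * t - m0))) * (-(m * m1))))) := by
  intro a0 a1 h0 h1
  have hsub : Set.Icc a0 a1 ⊆ Set.Ioi c0 := fun t ht => h0.trans_le ht.1
  have hc1 : ContinuousOn h (Set.Icc a0 a1) := fun t ht =>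
    (hh t (hsub ht)).continuousAt.continuousWithinAt
  obtain ⟨D1, hD1⟩ := isCompact_Icc.exists_bound_of_continuousOn hc1
  obtain ⟨D2, hD2⟩ := isCompact_Icc.exists_bound_of_continuousOn (hh'.mono hsub)
  have ha : a0 ∈ Set.Icc a0 a1 := ⟨le_rfl, h1.le⟩
  have hD10 : 0 ≤ D1 := (norm_nonneg _).trans (hD1 a0 ha)
  have hD20 : 0 ≤ D2 := (norm_nonneg _).trans (hD2 a0 ha)
  obtain ⟨B, hB, hev⟩ := RB_exp (c0 := c0) (θ := θ / (D1 + 1)) (by positivity) hm1 hm hσ a0 a1 h0 h1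
  refine ⟨D2 * (θ / (D1 + 1)) + D1 * B, by positivity, ?_⟩
  filter_upwards [hev] with m hm t ht
  obtain ⟨d1, d2, d3⟩ := hm t ht
  have e1 := hD1 t ht
  have e2 := hD2 t ht
  rw [Real.norm_eq_abs] at e1 e2
  refine ⟨(hh t (hsub ht)).mul d1, ?_, ?_⟩
  · rw [abs_mul]
    calc |h t| * |σ m * Real.exp (-(m * (m1 * t - m0)))| ≤ D1 * (θ / (D1 + 1)) :=
          mul_le_mul e1 d2 (abs_nonneg _) hD10
      _ ≤ θ := by
        rw [mul_div_assoc', div_le_iff₀ (by positivity)]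
        nlinarith
  · refine (abs_add_le _ _).trans (add_le_add ?_ ?_)
    · rw [abs_mul]
      exact mul_le_mul e2 d2 (abs_nonneg _) hD20
    · rw [abs_mul]
      exact mul_le_mul e1 d3 (abs_nonneg _) hD10

/-- the phases -/
noncomputable def yc (H : ℝ → ℝ) (σ : ℕ → ℝ) (c : ℕ → ℕ) (m : ℕ) (t : ℝ) : ℝ :=
  m * t + H t + Real.log (1 + (σ m * Real.exp (-(m * (2 * t - 0))) +
    Real.exp (-(H t)) * ((c m : ℝ) * Real.exp (-(m * (1 * t - 0))))))

lemma LF_yc {H H' : ℝ → ℝ} (hH : ∀ t, (0 : ℝ) < t → HasDerivAt H (H' t) t)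
    (hH' : ContinuousOn H' (Set.Ioi 0)) {σ : ℕ → ℝ} (hσ : ∀ m, |σ m| ≤ 1) {c : ℕ → ℕ} {B : ℕ}
    (hc : ∀ m, c m ≤ B) : LF 0 (yc H σ c) := by
  have h1 := RB_exp (c0 := 0) (θ := 1 / 4) (m1 := 2) (m0 := 0) (by norm_num) two_pos (by norm_num) hσ
  have hHc : ContinuousOn H (Set.Ioi 0) := fun t ht => (hH t ht).continuousAt.continuousWithinAt
  have h2 := RB_mul (c0 := 0) (θ := 1 / 4) (K := B) (m1 := 1) (m0 := 0)
    (h := fun t => Real.exp (-(H t))) (h' := fun t => Real.exp (-(H t)) * (-(H' t)))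
    (fun t ht => (hH t ht).neg.exp) ((hHc.neg.rexp).mul hH'.neg) (by norm_num) one_pos (by norm_num)
    (σ := fun m => (c m : ℝ)) fun m => by
      rw [abs_of_nonneg (Nat.cast_nonneg _)]
      exact_mod_cast hc m
  have h3 := h1.add h2
  rw [show (1 / 4 + 1 / 4 : ℝ) = 1 / 2 by norm_num] at h3
  exact ⟨_, lc_of hH hH' h3⟩

/-- values and phases -/
lemma phase_c {H : ℝ → ℝ} {σ : ℕ → ℝ} (hσ : ∀ m, |σ m| ≤ 1) (c : ℕ → ℕ) {a : ℝ} {m : ℕ}
    (hm : 1 ≤ m) {t : ℝ} (ht : 0 < t) (ha : 0 < a) (hHa : H t = Real.log a) :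
    0 < a * (Real.exp (m * t) + σ m * Real.exp (-(m * t))) + c m ∧
      Real.log (a * (Real.exp (m * t) + σ m * Real.exp (-(m * t))) + c m) = yc H σ c m t := by
  have hm0 : (0 : ℝ) < m := by exact_mod_cast hm
  have h2 : Real.exp (-(m * (2 * t - 0))) < 1 := by
    rw [Real.exp_lt_one_iff]
    have : 0 < m * (2 * t - 0) := by rw [sub_zero]; positivity
    linarith
  have hE : Real.exp (-(H t)) = a⁻¹ := by rw [hHa, Real.exp_neg, Real.exp_log ha]
  have h6 : 0 ≤ Real.exp (-(H t)) * ((c m : ℝ) * Real.exp (-(m * (1 * t - 0)))) := by positivity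
  have h3 : 0 < 1 + (σ m * Real.exp (-(m * (2 * t - 0))) +
      Real.exp (-(H t)) * ((c m : ℝ) * Real.exp (-(m * (1 * t - 0))))) := by
    have h4 := abs_le.1 (hσ m)
    have h5 := Real.exp_pos (-(m * (2 * t - 0)))
    nlinarith
  have e2 : a * (Real.exp (m * t) + σ m * Real.exp (-(m * t))) + c m =
      a * (Real.exp (m * t) * (1 + (σ m * Real.exp (-(m * (2 * t - 0))) +
        Real.exp (-(H t)) * ((c m : ℝ) * Real.exp (-(m * (1 * t - 0))))))) := by
    have f1 : Real.exp (-(m * t)) = Real.exp (m * t) * Real.exp (-(m * (2 * t - 0))) := by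
      rw [← Real.exp_add]; congr 1; ring
    have f2 : Real.exp (m * t) * Real.exp (-(m * (1 * t - 0))) = 1 := by
      have f3 : (m : ℝ) * t + -(m * (1 * t - 0)) = 0 := by ring
      rw [← Real.exp_add, f3, Real.exp_zero]
    have key : ∀ E1 E2 E3 s cc : ℝ, E1 * E2 = 1 →
        a * (E1 + s * (E1 * E3)) + cc = a * (E1 * (1 + (s * E3 + a⁻¹ * (cc * E2)))) := by
      intro E1 E2 E3 s cc h
      have h7 : a * a⁻¹ = 1 := mul_inv_cancel₀ ha.ne'
      linear_combination (-cc * (E1 * E2)) * h7 - cc * h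
    rw [f1, hE]
    exact key _ _ _ _ _ f2
  rw [e2]
  refine ⟨by positivity, ?_⟩
  unfold yc
  rw [Real.log_mul ha.ne' (by positivity), Real.log_mul (Real.exp_pos _).ne' h3.ne', Real.log_exp,
    hHa]
  ring

/-- **Lucas sequences with variable constants, in the parameter `t`.** -/
theorem hyp_c : ∃ C : ℕ, 2 ≤ C ∧ ∀ α β : ℝ → ℝ, LogC1 α → LogC1 β → ∀ (c : ℕ → ℕ) (B : ℕ),
    (∀ m, c m ≤ B) → ∀ S T : Set ℕ, Disjoint S T →
    Lac C (S ∪ T) → ∀ b0 b1 : ℝ, 0 < b0 → b0 < b1 →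
      1 ≤ dimH {t | b0 < t ∧ t < b1 ∧ ∃ M : ℕ,
        (∀ m ∈ S, M ≤ m → (⌊α t * FF (2 * Real.sinh t) m + c m⌋₊).Prime) ∧
        ∀ m ∈ T, M ≤ m → (⌊β t * LL (2 * Real.sinh t) m + c m⌋₊).Prime} := by
  obtain ⟨C, hC2, hC⟩ := main2
  refine ⟨C, hC2, fun α β hα hβ c B hcB S T hST hlac b0 b1 h0 h1 => ?_⟩
  obtain ⟨a1, H1, a2, a3⟩ := logC1_div hα
  obtain ⟨b1', H2, b2, b3⟩ := hβ
  refine hC 0 (yc (fun t => Real.log (α t / (2 * Real.cosh t))) (fun m => -(-1) ^ m) c)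
    (yc (fun t => Real.log (β t)) (fun m => (-1) ^ m) c)
    (fun m t => α t * FF (2 * Real.sinh t) m + c m)
    (fun m t => β t * LL (2 * Real.sinh t) m + c m) le_rfl (LF_yc a2 a3 sgn_le' hcB)
    (LF_yc b2 b3 sgn_le hcB)
    (fun t ht => ?_) (fun t ht => ?_) S T hST hlac b0 b1 h0 h1
  · filter_upwards [eventually_ge_atTop 1] with m hm
    have h2 := phase_c (σ := fun m => -(-1) ^ m) sgn_le' c hm ht (a1 t ht)
      (H := fun t => Real.log (α t / (2 * Real.cosh t))) rfl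
    have hc : 2 * Real.cosh t ≠ 0 := by have := Real.cosh_pos t; positivity
    have e : α t / (2 * Real.cosh t) * (Real.exp (m * t) + -(-1) ^ m * Real.exp (-(m * t))) =
        α t * FF (2 * Real.sinh t) m := by
      have h3 := FF_closed t m
      have h4 : Real.exp (m * t) + -(-1) ^ m * Real.exp (-(m * t)) =
          2 * Real.cosh t * FF (2 * Real.sinh t) m := by rw [h3]; ring
      rw [h4]
      field_simp
    simp only [e] at h2
    exact h2
  · filter_upwards [eventually_ge_atTop 1] with m hm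
    have h2 := phase_c (σ := fun m => (-1) ^ m) sgn_le c hm ht (b1' t ht)
      (H := fun t => Real.log (β t)) rfl
    simp only [← LL_closed] at h2
    exact h2

/-- if `n + 7` is prime, then `n` is not -/
theorem not_prime_of {n : ℕ} (h : (n + 7).Prime) : ¬ n.Prime := by
  intro hn
  rcases hn.eq_two_or_odd' with rfl | ho
  · norm_num at h
  · have h1 := h.eq_two_or_odd'
    rcases h1 with h1 | h1
    · omega
    · obtain ⟨a, ha⟩ := ho
      obtain ⟨b, hb⟩ := h1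
      omega

end Pool.Agent.Q288.VC
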