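import Mathlib
import Pool.Agent.Q43.LC.Pairs
import Pool.Agent.Q288.VC.Hyp

/-!
# Powers of a real base with variable bounded constants
-/

set_option autoImplicit false

namespace Pool.Agent.Q288.VC

open Filter Topology Finset MeasureTheory Pool.Agent.Q43.LC
open scoped ENNReal NNReal

lemma LF_b {c : ℕ → ℕ} {B : ℕ} (hc : ∀ m, c m ≤ B) : LF 0 (yc (fun _ => 0) (fun _ => 0) c) :=
  LF_yc (H := fun _ => 0) (H' := fun _ => 0) (fun t _ => hasDerivAt_const t _) continuousOn_const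
    (fun _ => by simp) hc

lemma val_b (c : ℕ → ℕ) (t : ℝ) (ht : 0 < t) : ∀ᶠ m : ℕ in atTop,
    0 < Real.exp t ^ m + c m ∧ Real.log (Real.exp t ^ m + c m) = yc (fun _ => 0) (fun _ => 0) c m t := by
  filter_upwards [eventually_ge_atTop 1] with m hm
  have h := phase_c (H := fun _ => 0) (σ := fun _ => 0) (fun _ => by simp) c hm ht one_pos (by simp)
  rw [zero_mul, add_zero, one_mul, Real.exp_nat_mul] at h
  exact h

/-- **Powers of a real base: dimension.** -/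
theorem base_dim : ∃ C : ℕ, 2 ≤ C ∧ ∀ (c : ℕ → ℕ) (B : ℕ), (∀ m, c m ≤ B) → ∀ S : Set ℕ, Lac C S →
    ∀ a b : ℝ, 1 ≤ a → a < b →
      dimH {x : ℝ | a < x ∧ x < b ∧ ∃ M : ℕ, ∀ m ∈ S, M ≤ m → (⌊x ^ m⌋₊ + c m).Prime} = 1 := by
  obtain ⟨C, hC2, hC⟩ := main2
  refine ⟨C, hC2, fun c B hc S hS a b ha hab => ?_⟩
  refine dim_exp le_rfl ha hab fun b0 b1 h0 h1 => ?_
  rw [Real.log_one] at h0
  refine (hC 0 _ _ (fun m t => Real.exp t ^ m + c m) (fun m t => Real.exp t ^ m + c m) le_rfl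
    (LF_b hc) (LF_b hc) (val_b c) (val_b c) S ∅
    (Set.disjoint_empty _) (by rwa [Set.union_empty]) b0 b1 h0 h1).trans (dimH_mono ?_)
  rintro t ⟨t0, t1, M, h2, _⟩
  refine ⟨t0, t1, M, fun m hm hge => ?_⟩
  have h3 := h2 m hm hge
  rwa [Nat.floor_add_natCast (by positivity)] at h3

/-- **Powers of a real base: almost everywhere.** -/
theorem base_ae (c : ℕ) {S : Set ℕ} (hs : Summable fun m : S => 1 / ((m : ℕ) : ℝ)) :
    ∀ᵐ x : ℝ, 1 < x → ∃ M : ℕ, ∀ m ∈ S, M ≤ m → ¬ (⌊x ^ m⌋₊ + c).Prime := by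
  refine ae_exp (β := 1) le_rfl
    (Q := fun x => ∃ M : ℕ, ∀ m ∈ S, M ≤ m → ¬ (⌊x ^ m⌋₊ + c).Prime) ?_
  rw [Real.log_one]
  filter_upwards [ae_val (v := fun m t => Real.exp t ^ m + ((fun _ => c : ℕ → ℕ) m : ℕ)) le_rfl
    (LF_b (c := fun _ => c) (B := c) fun _ => le_rfl) (val_b fun _ => c) hs] with t ht h0
  obtain ⟨M, hM⟩ := ht h0
  refine ⟨M, fun m hm hge => ?_⟩
  have h3 := hM m hm hge
  rwa [Nat.floor_add_natCast (by positivity)] at h3

end Pool.Agent.Q288.VC
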