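import Mathlib
import Pool.Agent.H295R3.Hoheisel

/-!
# Comeagre sets of amplitudes: every pattern occurs

`⌊b N⌋ + c` with `N = n ^ n`, `n = 2 ^ (2 ^ k)`.
-/

set_option autoImplicit false

namespace Pool.Agent.Q288.VC

open Filter Topology Finset

/-- One step: inside every interval of amplitudes of length `1/N'` there is an interval on which
`⌊b N⌋ + c` is constant and prime, and one on which it is constant and composite. -/
theorem stepG {δ η : ℝ} {X₀ : ℕ} (hH : ∀ X Y : ℕ, X₀ ≤ X → (X : ℝ) ^ (1 - δ) ≤ Y → Y ≤ X →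
    η * Y / Real.log X ≤ (((Ioc X (X + Y)).filter Nat.Prime).card : ℝ)) (hδ : 0 < δ) (hδ1 : δ < 1)
    (hη : 0 < η) {N N' s t : ℝ} {c : ℕ} (hs : 0 < s) (hst : s < t) (hN' : 1 ≤ N')
    (h1 : (X₀ : ℝ) ≤ s * N) (h2 : 4 ≤ s * N) (h3 : 4 * (t + 2 + c) * N' ≤ N ^ δ)
    (h4 : 1 ≤ 2 * s * N') (h5 : 8 * N' ≤ N) {l h : ℝ} (hl : s ≤ l) (hh : h ≤ t)
    (hlen : 1 / N' ≤ h - l) (w : Prop) :
    ∃ P : ℕ, l * N ≤ P ∧ (P : ℝ) + 1 ≤ h * N ∧ ((P + c).Prime ↔ w) := by
  have hN'0 : 0 < N' := by linarith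
  have hN0 : 0 < N := by linarith
  have hlN : s * N ≤ l * N := mul_le_mul_of_nonneg_right hl hN0.le
  have hlN0 : 0 ≤ l * N := by linarith
  have hceil := Nat.ceil_lt_add_one hlN0
  have hceil' := Nat.le_ceil (l * N)
  have hlen' : N / N' ≤ h * N - l * N := by
    have := mul_le_mul_of_nonneg_right hlen hN0.le
    rw [one_div, inv_mul_eq_div] at this
    linarith
  have hN8 : 8 ≤ N / N' := by
    rw [le_div_iff₀ hN'0]
    exact h5
  by_cases hw : w
  · set X := ⌈l * N⌉₊ + c with hX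
    set Y := ⌊N / (2 * N')⌋₊ with hY
    have hhalf : N / (2 * N') = N / N' / 2 := by field_simp
    have hY1 : (Y : ℝ) ≤ N / N' / 2 := by
      rw [← hhalf]
      exact Nat.floor_le (by positivity)
    have hY2 : N / N' / 2 < Y + 1 := by
      rw [← hhalf]
      exact Nat.lt_floor_add_one _
    have hY4 : N / N' / 4 ≤ Y := by linarith
    have hXr : (X : ℝ) = ⌈l * N⌉₊ + c := by rw [hX]; push_cast; ring
    have hc0 : (0 : ℝ) ≤ c := Nat.cast_nonneg c
    have hXlo : l * N ≤ X := by rw [hXr]; linarith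
    have hX0X : X₀ ≤ X := by
      have : (X₀ : ℝ) ≤ X := by linarith
      exact_mod_cast this
    have hlt : l < t := by
      have : 0 < 1 / N' := by positivity
      linarith
    have hNge : 1 ≤ N := by linarith
    have hXhi : (X : ℝ) ≤ (t + 2 + c) * N := by
      rw [hXr]
      have e1 : l * N ≤ t * N := mul_le_mul_of_nonneg_right hlt.le hN0.le
      nlinarith
    have hYX : Y ≤ X := by
      have e1 : N / N' / 2 ≤ s * N := by
        rw [div_div, div_le_iff₀ (by positivity)]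
        nlinarith
      have : (Y : ℝ) ≤ X := by linarith
      exact_mod_cast this
    have hpow : (X : ℝ) ^ (1 - δ) ≤ Y := by
      have ht0 : 1 ≤ t + 2 + c := by linarith
      have e1 : (X : ℝ) ^ (1 - δ) ≤ ((t + 2 + c) * N) ^ (1 - δ) :=
        Real.rpow_le_rpow (Nat.cast_nonneg _) hXhi (by linarith)
      have e2 : ((t + 2 + c) * N) ^ (1 - δ) ≤ (t + 2 + c) * N ^ (1 - δ) := by
        rw [Real.mul_rpow (by linarith) hN0.le]
        have e3 : (t + 2 + c) ^ (1 - δ) ≤ t + 2 + c := by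
          calc (t + 2 + c) ^ (1 - δ) ≤ (t + 2 + c) ^ (1 : ℝ) :=
                Real.rpow_le_rpow_of_exponent_le ht0 (by linarith)
            _ = t + 2 + c := Real.rpow_one _
        gcongr
      have e4 : (t + 2 + c) * N ^ (1 - δ) ≤ N / N' / 4 := by
        rw [div_div, le_div_iff₀ (by positivity)]
        have e5 : N ^ (1 - δ) * N ^ δ = N := by
          rw [← Real.rpow_add hN0, sub_add_cancel, Real.rpow_one]
        have e6 : 0 ≤ N ^ (1 - δ) := Real.rpow_nonneg hN0.le _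
        calc (t + 2 + c) * N ^ (1 - δ) * (N' * 4) = N ^ (1 - δ) * (4 * (t + 2 + c) * N') := by ring
          _ ≤ N ^ (1 - δ) * N ^ δ := by gcongr
          _ = N := e5
      linarith
    have hcount := hH X Y hX0X hpow hYX
    have hXgt : (1 : ℝ) < X := by linarith
    have hpos : 0 < η * Y / Real.log X := by
      have : 0 < Real.log X := Real.log_pos hXgt
      have : (0 : ℝ) < Y := by linarith
      positivity
    have hcard : 0 < ((Ioc X (X + Y)).filter Nat.Prime).card := by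
      have := hpos.trans_le hcount
      exact_mod_cast this
    obtain ⟨q, hq⟩ := Finset.card_pos.mp hcard
    rw [Finset.mem_filter, Finset.mem_Ioc] at hq
    obtain ⟨⟨hq1, hq2⟩, hq3⟩ := hq
    have hcq : c ≤ q := by omega
    refine ⟨q - c, ?_, ?_, ?_⟩
    · rw [Nat.cast_sub hcq]
      have : (X : ℝ) < q := by exact_mod_cast hq1
      linarith
    · rw [Nat.cast_sub hcq]
      have : (q : ℝ) ≤ X + Y := by exact_mod_cast hq2
      linarith
    · rw [Nat.sub_add_cancel hcq]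
      exact ⟨fun _ => hw, fun _ => hq3⟩
  · -- composite: an even value
    have key : ∀ P : ℕ, ⌈l * N⌉₊ ≤ P → P ≤ ⌈l * N⌉₊ + 1 → Even (P + c) →
        l * N ≤ P ∧ (P : ℝ) + 1 ≤ h * N ∧ ((P + c).Prime ↔ w) := by
      intro P hP1 hP2 he
      have e1 : ((⌈l * N⌉₊ : ℕ) : ℝ) ≤ P := by exact_mod_cast hP1
      have e2 : (P : ℝ) ≤ ⌈l * N⌉₊ + 1 := by exact_mod_cast hP2
      refine ⟨by linarith, by linarith, ⟨fun hp => ?_, fun h => absurd h hw⟩⟩
      exfalso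
      have e3 : (4 : ℝ) ≤ P := by linarith
      have e4 : 4 ≤ P := by exact_mod_cast e3
      have := (hp.even_iff).mp he
      omega
    rcases Nat.even_or_odd (⌈l * N⌉₊ + c) with he | ho
    · exact ⟨⌈l * N⌉₊, key _ le_rfl (by omega) he⟩
    · refine ⟨⌈l * N⌉₊ + 1, key _ (by omega) le_rfl ?_⟩
      rw [show ⌈l * N⌉₊ + 1 + c = ⌈l * N⌉₊ + c + 1 by ring]
      exact ho.add_one

/-- the numbers `n ^ n`, `n = 2 ^ (2 ^ k)` -/
noncomputable def NN (k : ℕ) : ℝ := 2 ^ (2 ^ (k + 2 ^ k))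

theorem NN_pos (k : ℕ) : 0 < NN k := by unfold NN; positivity

theorem le_NN (k : ℕ) : (k : ℝ) ≤ NN k := by
  unfold NN
  have h1 : k < 2 ^ (2 ^ (k + 2 ^ k)) := by
    calc k ≤ k + 2 ^ k := Nat.le_add_right _ _
      _ < 2 ^ (k + 2 ^ k) := Nat.lt_two_pow_self
      _ < 2 ^ (2 ^ (k + 2 ^ k)) := Nat.lt_two_pow_self
  exact_mod_cast h1.le

theorem NN_tendsto : Tendsto NN atTop atTop :=
  tendsto_atTop_mono le_NN tendsto_natCast_atTop_atTop

theorem NN_growth {δ : ℝ} (hδ : 0 < δ) : ∀ᶠ k : ℕ in atTop, NN k ^ 2 ≤ NN (k + 1) ^ δ := by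
  have h1 : Tendsto (fun k : ℕ => δ * (k : ℝ)) atTop atTop :=
    tendsto_natCast_atTop_atTop.const_mul_atTop hδ
  filter_upwards [h1.eventually_ge_atTop 2] with k hk
  have h2 : k ≤ 2 ^ k := Nat.lt_two_pow_self.le
  have h3 : 2 ^ k * 2 ^ (k + 2 ^ k) ≤ 2 ^ (k + 1 + 2 ^ (k + 1)) := by
    rw [← pow_add]
    apply Nat.pow_le_pow_right (by norm_num)
    rw [pow_succ]
    omega
  have h4 : ((2 : ℝ) ^ k) * 2 ^ (k + 2 ^ k) ≤ 2 ^ (k + 1 + 2 ^ (k + 1)) := by exact_mod_cast h3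
  have h5 : (k : ℝ) ≤ 2 ^ k := by exact_mod_cast h2
  have h6 : (2 : ℝ) * 2 ^ (k + 2 ^ k) ≤ δ * 2 ^ (k + 1 + 2 ^ (k + 1)) := by
    calc (2 : ℝ) * 2 ^ (k + 2 ^ k) ≤ (δ * k) * 2 ^ (k + 2 ^ k) := by gcongr
      _ ≤ (δ * 2 ^ k) * 2 ^ (k + 2 ^ k) := by gcongr
      _ = δ * (2 ^ k * 2 ^ (k + 2 ^ k)) := by ring
      _ ≤ _ := by gcongr
  have h7 : NN k ^ 2 = (2 : ℝ) ^ ((2 : ℝ) * 2 ^ (k + 2 ^ k)) := by
    unfold NN
    rw [← pow_mul, ← Real.rpow_natCast]
    congr 1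
    push_cast
    ring
  have h8 : NN (k + 1) ^ δ = (2 : ℝ) ^ (δ * 2 ^ (k + 1 + 2 ^ (k + 1))) := by
    unfold NN
    rw [← Real.rpow_natCast, ← Real.rpow_mul (by norm_num)]
    congr 1
    push_cast
    ring
  rw [h7, h8]
  exact Real.rpow_le_rpow_of_exponent_le (by norm_num) h6

/-- all large steps -/
theorem stepsG {s t : ℝ} (hs : 0 < s) (hst : s < t) (c : ℕ) : ∃ k₀ : ℕ, ∀ k, k₀ ≤ k →
    ∀ l h : ℝ, s ≤ l → h ≤ t → 1 / NN k ≤ h - l → ∀ w : Prop,
      ∃ P : ℕ, l * NN (k + 1) ≤ P ∧ (P : ℝ) + 1 ≤ h * NN (k + 1) ∧ ((P + c).Prime ↔ w) := by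
  obtain ⟨δ, η, hδ, hδ1, hη, X₀, _, hH⟩ := Pool.Agent.H295R3.D.hoheisel
  have t1 := NN_tendsto
  have t2 : Tendsto (fun k => NN (k + 1)) atTop atTop := (tendsto_add_atTop_iff_nat 1).2 t1
  have h := ((((((t2.const_mul_atTop hs).eventually_ge_atTop (X₀ : ℝ)).and
    ((t2.const_mul_atTop hs).eventually_ge_atTop 4)).and
    (t1.eventually_ge_atTop (4 * (t + 2 + c)))).and (NN_growth hδ)).and
    ((t1.const_mul_atTop (show 0 < 2 * s by positivity)).eventually_ge_atTop 1)).and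
    (t1.eventually_ge_atTop 8)
  obtain ⟨k₀, hk₀⟩ := eventually_atTop.1 h
  refine ⟨k₀, fun k hk l h hl hh hlen w => ?_⟩
  obtain ⟨⟨⟨⟨⟨a1, a2⟩, a3⟩, a4⟩, a5⟩, a6⟩ := hk₀ k hk
  have hNk := NN_pos k
  have e1 : 4 * (t + 2 + c) * NN k ≤ NN (k + 1) ^ δ := by
    refine le_trans ?_ a4
    rw [pow_two]
    exact mul_le_mul_of_nonneg_right a3 hNk.le
  have hN1 : 1 ≤ NN (k + 1) := by
    unfold NN
    exact one_le_pow₀ (by norm_num)
  have e2 : NN (k + 1) ^ δ ≤ NN (k + 1) := by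
    calc NN (k + 1) ^ δ ≤ NN (k + 1) ^ (1 : ℝ) :=
          Real.rpow_le_rpow_of_exponent_le hN1 hδ1.le
      _ = _ := Real.rpow_one _
  have e3 : 8 * NN k ≤ NN (k + 1) := by
    refine le_trans ?_ (a4.trans e2)
    rw [pow_two]
    exact mul_le_mul_of_nonneg_right a6 hNk.le
  exact stepG hH hδ hδ1 hη hs hst (by linarith) a1 a2 e1 a5 e3 hl hh hlen w

/-- finite patterns -/
theorem pattern {s t : ℝ} (c : ℕ) (T : Set ℕ) {k₀ : ℕ} (hk₀ : ∀ k, k₀ ≤ k →
    ∀ l h : ℝ, s ≤ l → h ≤ t → 1 / NN k ≤ h - l → ∀ w : Prop,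
      ∃ P : ℕ, l * NN (k + 1) ≤ P ∧ (P : ℝ) + 1 ≤ h * NN (k + 1) ∧ ((P + c).Prime ↔ w)) (m : ℕ) :
    ∀ k, k₀ ≤ k → ∀ l h : ℝ, s ≤ l → h ≤ t → 1 / NN k ≤ h - l →
      ∃ P : ℕ → ℕ, ∃ l' h' : ℝ, l ≤ l' ∧ l' < h' ∧ h' ≤ h ∧ ∀ i, k < i → i ≤ k + m →
        (∀ b, l' < b → b < h' → (P i : ℝ) < b * NN i ∧ b * NN i < P i + 1) ∧
          ((P i + c).Prime ↔ i ∈ T) := by
  induction m with
  | zero =>
    intro k hk l h hl hh hlen
    have : 0 < 1 / NN k := one_div_pos.mpr (NN_pos k)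
    exact ⟨fun _ => 0, l, h, le_rfl, by linarith, le_rfl, fun i h1 h2 => by omega⟩
  | succ m ih =>
    intro k hk l h hl hh hlen
    obtain ⟨P₀, p1, p2, p3⟩ := hk₀ k hk l h hl hh hlen (k + 1 ∈ T)
    have hN := NN_pos (k + 1)
    have q1 : l ≤ P₀ / NN (k + 1) := by rwa [le_div_iff₀ hN]
    have q2 : ((P₀ : ℝ) + 1) / NN (k + 1) ≤ h := by rwa [div_le_iff₀ hN]
    obtain ⟨P, l', h', r1, r2, r3, r4⟩ := ih (k + 1) (by omega) (P₀ / NN (k + 1))
      (((P₀ : ℝ) + 1) / NN (k + 1)) (hl.trans q1) (q2.trans hh) (by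
        rw [← sub_div, add_sub_cancel_left])
    refine ⟨fun i => if i = k + 1 then P₀ else P i, l', h', q1.trans r1, r2, r3.trans q2,
      fun i h1 h2 => ?_⟩
    by_cases hi : i = k + 1
    · subst hi
      simp only [if_true]
      refine ⟨fun b hb1 hb2 => ⟨?_, ?_⟩, p3⟩
      · rw [← div_lt_iff₀ hN]
        exact r1.trans_lt hb1
      · rw [← lt_div_iff₀ hN]
        exact hb2.trans_le r3
    · simp only [if_neg hi]
      exact r4 i (by omega) (by omega)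

/-- **Comeagre many amplitudes**: every pattern occurs. -/
theorem generic (T : Set ℕ) (g : ℕ → ℕ) : ∀ᶠ b : ℝ in residual ℝ, 0 < b → ∀ c K : ℕ,
    ∃ k, K ≤ k ∧ ∀ i, k ≤ i → i ≤ g k → ((⌊b * NN i⌋₊ + c).Prime ↔ i ∈ T) := by
  have main : ∀ c K : ℕ, ∀ᶠ b : ℝ in residual ℝ, 0 < b →
      ∃ k, K ≤ k ∧ ∀ i, k ≤ i → i ≤ g k → ((⌊b * NN i⌋₊ + c).Prime ↔ i ∈ T) := by
    intro c K
    set U : Set ℝ := ⋃ k : ℕ, ⋃ P : ℕ → ℕ, ⋃ _ : K ≤ k ∧ ∀ i, k ≤ i → i ≤ g k →
      ((P i + c).Prime ↔ i ∈ T), ⋂ i ∈ Finset.Icc k (g k),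
        {b : ℝ | (P i : ℝ) < b * NN i ∧ b * NN i < P i + 1} with hU
    have hUo : IsOpen U := by
      refine isOpen_iUnion fun k => isOpen_iUnion fun P => isOpen_iUnion fun _ => ?_
      refine isOpen_biInter_finset fun i _ => ?_
      exact (isOpen_lt continuous_const (continuous_id.mul continuous_const)).inter
        (isOpen_lt (continuous_id.mul continuous_const) continuous_const)
    have hVo : IsOpen (Set.Iio 0 ∪ U) := isOpen_Iio.union hUo
    have hVd : Dense (Set.Iio 0 ∪ U) := by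
      rw [Metric.dense_iff]
      intro x r hr
      by_cases hx : x < 0
      · exact ⟨x, Metric.mem_ball_self hr, Or.inl hx⟩
      · push Not at hx
        have hs : 0 < x + r / 3 := by positivity
        have hst : x + r / 3 < x + r / 2 := by linarith
        obtain ⟨k₀, hk₀⟩ := stepsG hs hst c
        obtain ⟨k₁, hk₁⟩ := eventually_atTop.1 (NN_tendsto.eventually_ge_atTop (6 / r))
        set k := max (max k₀ k₁) K with hk
        have e1 : 6 / r ≤ NN k := hk₁ k ((le_max_right _ _).trans (le_max_left _ _))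
        obtain ⟨P, l', h', r1, r2, r3, r4⟩ := pattern c T hk₀ (g (k + 1)) k
          ((le_max_left _ _).trans (le_max_left _ _)) (x + r / 3) (x + r / 2) le_rfl le_rfl (by
            rw [div_le_iff₀ (NN_pos k)]
            rw [div_le_iff₀ hr] at e1
            linarith)
        refine ⟨(l' + h') / 2, ?_, Or.inr ?_⟩
        · rw [Metric.mem_ball, Real.dist_eq, abs_lt]
          constructor <;> linarith
        · simp only [hU, Set.mem_iUnion]
          refine ⟨k + 1, P, ⟨(le_max_right _ _).trans (Nat.le_succ _), fun i h1 h2 =>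
            (r4 i (by omega) (by omega)).2⟩, ?_⟩
          simp only [Set.mem_iInter, Finset.mem_Icc, Set.mem_ofPred_eq]
          intro i hi
          exact (r4 i (by omega) (by omega)).1 _ (by linarith) (by linarith)
    filter_upwards [residual_of_dense_open hVo hVd] with b hb hb0
    rcases hb with hb | hb
    · exact absurd hb0 (not_lt.mpr (le_of_lt hb))
    · simp only [hU, Set.mem_iUnion] at hb
      obtain ⟨k, P, ⟨h1, h2⟩, h3⟩ := hb
      simp only [Set.mem_iInter, Finset.mem_Icc, Set.mem_ofPred_eq] at h3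
      refine ⟨k, h1, fun i hi1 hi2 => ?_⟩
      obtain ⟨h4, h5⟩ := h3 i ⟨hi1, hi2⟩
      have h6 : ⌊b * NN i⌋₊ = P i := by
        rw [Nat.floor_eq_iff (mul_nonneg hb0.le (NN_pos i).le)]
        exact ⟨h4.le, h5⟩
      rw [h6]
      exact h2 i hi1 hi2
  have h1 : ∀ᶠ b : ℝ in residual ℝ, ∀ c K : ℕ, 0 < b →
      ∃ k, K ≤ k ∧ ∀ i, k ≤ i → i ≤ g k → ((⌊b * NN i⌋₊ + c).Prime ↔ i ∈ T) :=
    eventually_countable_forall.2 fun c => eventually_countable_forall.2 fun K => main c K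
  exact h1.mono fun b hb hb0 c K => hb c K hb0

end Pool.Agent.Q288.VC
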